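import Pool.Agent.H126R2.NC.L4
import Pool.Agent.H825R2.EW.Final
import Pool.Agent.H825R2.EW.PFinal
import Pool.Agent.H825R2.EW.PRatio

set_option autoImplicit false
set_option linter.unusedSectionVars false

/-!
# Faithful circuit covers for eulerian weights with odd values
-/

namespace Pool.Agent.H416R3.GD

open Finset
open Pool.Agent.Helper879.ECD (F2 cn f2_add_self f2_cases)
open Pool.Agent.H126R2.CDC (MGraph)
open Pool.Agent.H126R2.NC
open Pool.Agent.H825R2.EW (cut mem_cut cross cover_light cover_parts cover_ratio)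

variable {V E : Type} [Fintype V] [DecidableEq V] [Fintype E] [DecidableEq E]

/-- Every edge cut has even total weight. -/
def Eulerian (G : MGraph V E) (w : E → ℕ) : Prop :=
  ∀ X : Finset V, Even (∑ e ∈ cut G univ X, w e)

/-- No edge weighs more than half of an edge cut containing it. -/
def Admissible (G : MGraph V E) (w : E → ℕ) : Prop :=
  ∀ X : Finset V, ∀ e ∈ cut G univ X, 2 * w e ≤ ∑ f ∈ cut G univ X, w f

/-- the edges of odd weight -/
def odd (w : E → ℕ) : Finset E := univ.filter (fun e => w e % 2 = 1)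

lemma odd_even (G : MGraph V E) (w : E → ℕ) (hw : Eulerian G w) : G.IsEven (odd w) := by
  intro v
  have h1 := hw {v}
  have h2 : Even ((cut G univ {v}).filter (fun e => w e % 2 = 1)).card := by
    rw [Nat.even_iff] at h1 ⊢
    rw [Finset.card_filter]
    rw [Finset.sum_nat_mod] at h1
    have h3 : ∀ e ∈ cut G univ {v}, w e % 2 = if w e % 2 = 1 then 1 else 0 := by
      intro e _
      have := Nat.mod_two_eq_zero_or_one (w e)
      split_ifs <;> omega
    rw [Finset.sum_congr rfl h3] at h1
    exact h1
  have h4 : (odd w).filter (fun e => v ∈ G.ends e) =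
      (cut G univ {v}).filter (fun e => w e % 2 = 1) ∪
        (odd w).filter (fun e => G.ends e = s(v, v)) := by
    ext e
    simp only [odd, cut, Finset.mem_filter, Finset.mem_univ, true_and, Finset.mem_union,
      Finset.mem_singleton, implies_true]
    generalize G.ends e = z
    induction z using Sym2.ind with
    | _ x y =>
      simp only [Sym2.mem_iff, Sym2.eq_iff]
      constructor
      · rintro ⟨h5, h6⟩
        by_cases h7 : x = v
        · by_cases h8 : y = v
          · right; exact ⟨h5, Or.inl ⟨h7, h8⟩⟩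
          · left
            exact ⟨⟨⟨v, Or.inl h7.symm, rfl⟩, ⟨y, Or.inr rfl, h8⟩⟩, h5⟩
        · have h8 : y = v := by
            rcases h6 with h6 | h6
            · exact absurd h6.symm h7
            · exact h6.symm
          left
          exact ⟨⟨⟨v, Or.inr h8.symm, rfl⟩, ⟨x, Or.inl rfl, h7⟩⟩, h5⟩
      · rintro (⟨⟨⟨u, h5, h6⟩, -⟩, h7⟩ | ⟨h5, h6⟩)
        · subst h6
          exact ⟨h7, h5⟩
        · refine ⟨h5, ?_⟩
          rcases h6 with ⟨h6, -⟩ | ⟨h6, -⟩ <;> exact Or.inl h6.symm
  have h5 : Disjoint ((cut G univ {v}).filter (fun e => w e % 2 = 1))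
      ((odd w).filter (fun e => G.ends e = s(v, v))) := by
    rw [Finset.disjoint_left]
    intro e h6 h7
    rw [Finset.mem_filter] at h6 h7
    have h8 := h6.1
    unfold cut at h8
    rw [Finset.mem_filter] at h8
    obtain ⟨-, -, -, u, hu1, hu2⟩ := h8
    rw [h7.2] at hu1
    simp only [Sym2.mem_iff, or_self] at hu1
    exact hu2 (by rw [hu1]; exact Finset.mem_singleton_self _)
  unfold MGraph.deg
  rw [h4, Finset.card_union_of_disjoint h5, add_assoc, ← two_mul]
  exact h2.add (even_two_mul _)

/-- reduction to the even part -/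
lemma cover_of_even_part (G : MGraph V E) (w : E → ℕ) (hw : Eulerian G w)
    (h : InIntCone G (fun e => 2 * (w e / 2))) : InIntCone G w := by
  obtain ⟨F, hF1, hF2⟩ := h
  obtain ⟨F', hF1', hF2'⟩ := G.decompose _ _ rfl (odd_even G w hw)
  refine ⟨F + F', ?_, ?_⟩
  · intro C hC
    rcases Multiset.mem_add.1 hC with hC | hC
    · exact hF1 C hC
    · exact hF1' C hC
  · intro e
    rw [Multiset.countP_add, hF2, hF2']
    show 2 * (w e / 2) + (if e ∈ odd w then 1 else 0) = w e
    simp only [odd, Finset.mem_filter, Finset.mem_univ, true_and]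
    split_ifs <;> omega

/-- Near-constant even weights that are constant on 2-cuts of a graph without 1-cuts. -/
theorem cover_near (G : MGraph V E) (p : E → ℕ) (hev : ∀ e, Even (p e))
    (v : E × Bool → V) (hv : ∀ e, G.ends e = s(v (e, false), v (e, true)))
    (h1c : ∀ B : Finset V, cn (fun e => v (e, false)) (fun e => v (e, true)) univ B ≠ 1)
    (htc : ∀ e f, TC (fun e => v (e, false)) (fun e => v (e, true)) e f → p e = p f)
    (hr : ∀ e f, 8 * p e ≤ 9 * p f) : InIntCone G p := by
  classical
  by_cases hE : IsEmpty E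
  · exact ⟨0, by simp, fun e => (hE.false e).elim⟩
  rw [not_isEmpty_iff] at hE
  obtain ⟨col, hcol1, hcol2⟩ := nine_colouring_bridgeless (fun e => v (e, false))
    (fun e => v (e, true)) h1c
  obtain ⟨e0, -, he0⟩ := Finset.exists_max_image (univ : Finset E) p
    (Finset.univ_nonempty)
  obtain ⟨e1, -, he1⟩ := Finset.exists_min_image (univ : Finset E) p
    (Finset.univ_nonempty)
  choose q hq using hev
  have hqp : ∀ e, p e = 2 * q e := fun e => by rw [hq e]; ring
  set M := q e0 with hM
  set T := q e0 - q e1 with hT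
  have hle0 : ∀ e, q e ≤ M := fun e => by
    have := he0 e (Finset.mem_univ _)
    rw [hqp, hqp] at this; omega
  have hle1 : ∀ e, q e1 ≤ q e := fun e => by
    have := he1 e (Finset.mem_univ _)
    rw [hqp, hqp] at this; omega
  have h9 : 9 * T ≤ M := by
    have := hr e0 e1
    rw [hqp, hqp] at this
    omega
  have hcov : ∀ (t : ℕ) (γ : Fin 3 × Fin 3), ∃ F : Multiset (Finset E),
      (∀ C ∈ F, G.IsCircuit C) ∧ ∀ e, F.countP (fun C => e ∈ C) =
        if e ∈ univ.filter (fun e => t < M - q e ∧ col e = γ) then 0 else 2 := by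
    intro t γ
    apply cover_minus G v hv
    apply hcol2 _ γ
    · intro e he
      exact (Finset.mem_filter.1 he).2.2
    · intro e he f hef
      rw [Finset.mem_filter] at he ⊢
      have h1 := htc e f hef
      rw [hqp, hqp] at h1
      refine ⟨Finset.mem_univ _, ?_, ?_⟩
      · have := he.2.1; omega
      · rw [← hcol1 e f hef]; exact he.2.2
  choose F hF1 hF2 using hcov
  obtain ⟨F0, hF01, hF02⟩ := cover_minus G v hv ∅ (by
    intro B
    rw [Finset.sdiff_empty]
    exact h1c B)
  have hF02' : ∀ e, F0.countP (fun C => e ∈ C) = 2 := fun e => by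
    rw [hF02 e, if_neg (Finset.notMem_empty e)]
  refine ⟨∑ x ∈ (Finset.range T) ×ˢ (univ : Finset (Fin 3 × Fin 3)), F x.1 x.2 +
    (M - 9 * T) • F0, ?_, ?_⟩
  · intro C hC
    rw [Multiset.mem_add] at hC
    rcases hC with hC | hC
    · rw [Multiset.mem_sum] at hC
      obtain ⟨c, _, hc⟩ := hC
      exact hF1 _ _ C hc
    · exact hF01 C (Multiset.mem_of_mem_nsmul hC)
  · intro e
    rw [Multiset.countP_add, countP_sum, Multiset.countP_nsmul, hF02' e]
    have h1 : ∑ x ∈ (Finset.range T) ×ˢ (univ : Finset (Fin 3 × Fin 3)),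
        (F x.1 x.2).countP (fun C => e ∈ C) + 2 * (M - q e) = 18 * T := by
      rw [Finset.sum_product]
      dsimp only
      have h2 : ∀ t ∈ Finset.range T, ∑ γ : Fin 3 × Fin 3, (F t γ).countP (fun C => e ∈ C) +
          (if t < M - q e then 2 else 0) = 18 := by
        intro t _
        have h3 : ∀ γ ∈ (univ : Finset (Fin 3 × Fin 3)), (F t γ).countP (fun C => e ∈ C) +
            (if γ = col e then (if t < M - q e then 2 else 0) else 0) = 2 := by
          intro γ _
          rw [hF2 t γ e]
          by_cases h4 : t < M - q e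
          · by_cases h5 : γ = col e
            · subst h5; simp [h4]
            · simp [h4, h5, Ne.symm h5]
          · simp [h4]
        have h4 := Finset.sum_congr rfl h3
        rw [Finset.sum_add_distrib, Finset.sum_ite_eq'] at h4
        simpa using h4
      have h5 := Finset.sum_congr rfl h2
      rw [Finset.sum_add_distrib, ← Finset.sum_filter, Finset.sum_const, Finset.sum_const,
        Finset.card_range] at h5
      have h6 : ((Finset.range T).filter (fun t => t < M - q e)).card = M - q e := by
        have h7 : (Finset.range T).filter (fun t => t < M - q e) = Finset.range (M - q e) := by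
          ext t
          rw [Finset.mem_filter, Finset.mem_range, Finset.mem_range]
          have := hle1 e
          omega
        rw [h7, Finset.card_range]
      rw [h6] at h5
      simp only [smul_eq_mul] at h5
      omega
    have h2 := hle0 e
    have h3 := hqp e
    have h4 : (M - 9 * T) * 2 + 18 * T = 2 * M := by omega
    omega

theorem goddyn_near (G : MGraph V E) (w : E → ℕ) (hw : Eulerian G w) (ha : Admissible G w)
    (h2 : ∀ e, 2 ≤ w e) (hr : ∀ e f, 8 * (w e / 2) ≤ 9 * (w f / 2)) : InIntCone G w := by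
  classical
  obtain ⟨v, hv⟩ := G.exists_halves
  have hcut : ∀ X : Finset V, cut G univ X =
      univ.filter (fun e => ¬ (v (e, false) ∈ X ↔ v (e, true) ∈ X)) := by
    intro X
    ext f
    rw [mem_cut G v hv, Finset.mem_filter]
    simp
  apply cover_of_even_part G w hw
  apply cover_near G _ (fun e => even_two_mul _) v hv
  · intro B hB
    unfold cn at hB
    rw [← hcut B, Finset.card_eq_one] at hB
    obtain ⟨e, he⟩ := hB
    have h3 := ha B e (by rw [he]; exact Finset.mem_singleton_self e)
    rw [he, Finset.sum_singleton] at h3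
    have := h2 e
    omega
  · intro e f hef
    obtain ⟨z, hz⟩ := hef
    by_cases h3 : e = f
    · rw [h3]
    · let X : Finset V := univ.filter (fun u => z u = 1)
      have h4 : cut G univ X = {e, f} := by
        rw [hcut]
        ext h
        simp only [X, Finset.mem_filter, Finset.mem_univ, true_and, Finset.mem_insert,
          Finset.mem_singleton]
        rw [f2_ne, hz h]
        by_cases h5 : h = e
        · subst h5
          simp [h3]
        · by_cases h6 : h = f
          · simp [h6, Ne.symm h3]
          · simp [h5, h6]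
      have h5 := ha X e (by rw [h4]; simp)
      have h6 := ha X f (by rw [h4]; simp)
      rw [h4, Finset.sum_pair h3] at h5 h6
      have h7 : w e = w f := by omega
      rw [h7]
  · intro e f
    have := hr e f
    omega

/-- all level sets `{w ≥ 2j}` are bridgeless -/
theorem goddyn_level (G : MGraph V E) (w : E → ℕ) (hw : Eulerian G w)
    (hl : ∀ j : ℕ, 1 ≤ j → ∀ X : Finset V,
      ((cut G univ X).filter (fun e => 2 * j ≤ w e)).card ≠ 1) : InIntCone G w := by
  classical
  obtain ⟨v, hv⟩ := G.exists_halves
  apply cover_of_even_part G w hw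
  have hcov : ∀ j : ℕ, ∃ F : Multiset (Finset E),
      (∀ C ∈ F, G.IsCircuit C) ∧ ∀ e, F.countP (fun C => e ∈ C) =
        if e ∈ univ.filter (fun e => ¬ 2 * (j + 1) ≤ w e) then 0 else 2 := by
    intro j
    apply cover_minus G v hv
    intro B
    have h := hl (j + 1) (by omega) B
    have h2 : (cut G univ B).filter (fun e => 2 * (j + 1) ≤ w e) =
        (univ \ univ.filter (fun e => ¬ 2 * (j + 1) ≤ w e)).filter
          (fun e => ¬ (v (e, false) ∈ B ↔ v (e, true) ∈ B)) := by
      ext f
      rw [Finset.mem_filter, mem_cut G v hv, Finset.mem_filter]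
      simp only [Finset.mem_univ, true_and, Finset.mem_sdiff, Finset.mem_filter, not_not]
      tauto
    rw [h2] at h
    exact h
  choose F hF1 hF2 using hcov
  obtain ⟨M, hM⟩ : ∃ M : ℕ, ∀ e, w e / 2 ≤ M :=
    ⟨∑ e, w e / 2, fun e => Finset.single_le_sum (f := fun e => w e / 2)
      (fun _ _ => Nat.zero_le _) (Finset.mem_univ e)⟩
  refine ⟨∑ j ∈ Finset.range M, F j, ?_, ?_⟩
  · intro C hC
    rw [Multiset.mem_sum] at hC
    obtain ⟨c, _, hc⟩ := hC
    exact hF1 _ C hc
  · intro e
    rw [countP_sum]
    have h1 : ∀ j ∈ Finset.range M, (F j).countP (fun C => e ∈ C) =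
        if j < w e / 2 then 2 else 0 := by
      intro j _
      rw [hF2 j e]
      simp only [Finset.mem_filter, Finset.mem_univ, true_and]
      by_cases h : 2 * (j + 1) ≤ w e
      · rw [if_neg (not_not.2 h), if_pos (by omega)]
      · rw [if_pos h, if_neg (by omega)]
    rw [Finset.sum_congr rfl h1, ← Finset.sum_filter, Finset.sum_const]
    have h2 : (Finset.range M).filter (fun j => j < w e / 2) = Finset.range (w e / 2) := by
      ext j
      have := hM e
      rw [Finset.mem_filter, Finset.mem_range, Finset.mem_range]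
      omega
    rw [h2, Finset.card_range, smul_eq_mul, mul_comm]

/-- half strength -/
theorem goddyn_half (G : MGraph V E) (w : E → ℕ) (hw : Eulerian G w)
    (h : ∀ e, ∃ W : Finset V, (∀ v ∈ G.ends e, v ∈ W) ∧
        ∀ c : V → ℕ, (∀ f ∈ cross G W c, w f / 2 ≤ w e / 2) →
          2 * (w e / 2) * ((W.image c).card - 1) ≤ ∑ f ∈ cross G W c, w f / 2) :
    InIntCone G w := by
  apply cover_of_even_part G w hw
  apply cover_parts G _ (fun e => even_two_mul _) (fun m => m / 2)
    (fun m n hmn => Nat.div_le_div_right hmn)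
  · intro e
    show 2 * (w e / 2) ≤ 4 * (2 * (w e / 2) / 2)
    omega
  · intro e
    obtain ⟨W, h1, h2⟩ := h e
    refine ⟨W, h1, fun c hc => ?_⟩
    have hc' : ∀ f ∈ cross G W c, w f / 2 ≤ w e / 2 := fun f hf => by
      have : 2 * (w f / 2) ≤ 2 * (w e / 2) := hc f hf
      omega
    have h3 := h2 c hc'
    have h4 : ∑ f ∈ cross G W c, min (2 * (w f / 2)) (4 * (2 * (w e / 2) / 2) - 2 * (w f / 2)) =
        2 * ∑ f ∈ cross G W c, w f / 2 := by
      rw [Finset.mul_sum]
      apply Finset.sum_congr rfl
      intro f hf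
      have := hc' f hf
      omega
    show 4 * (2 * (w e / 2) / 2) * ((W.image c).card - 1) ≤
      ∑ f ∈ cross G W c, min (2 * (w f / 2)) (4 * (2 * (w e / 2) / 2) - 2 * (w f / 2))
    rw [h4]
    have h5 : 4 * (2 * (w e / 2) / 2) = 2 * (2 * (w e / 2)) := by omega
    rw [h5, mul_assoc]
    exact Nat.mul_le_mul_left 2 h3

/-- bounded ratio -/
theorem goddyn_ratio (G : MGraph V E) (w : E → ℕ) (hw : Eulerian G w) (l h : ℕ)
    (hl : ∀ e, l ≤ w e / 2) (hh : ∀ e, w e / 2 ≤ h) (h2 : Even (l + h))
    (hcon : ∀ X : Finset V, X.Nonempty → X ≠ univ → 2 * (l + h) ≤ l * (cut G univ X).card) :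
    InIntCone G w := by
  apply cover_of_even_part G w hw
  obtain ⟨k, hk⟩ := h2
  apply cover_ratio G _ (fun e => even_two_mul _) (2 * l) (2 * h)
  · intro e
    have := hl e
    show 2 * l ≤ 2 * (w e / 2)
    omega
  · intro e
    have := hh e
    show 2 * (w e / 2) ≤ 2 * h
    omega
  · exact ⟨k, by omega⟩
  · intro X h3 h4
    have h5 := hcon X h3 h4
    have h6 : 2 * (2 * l + 2 * h) = 2 * (2 * (l + h)) := by ring
    rw [h6, mul_assoc]
    exact Nat.mul_le_mul_left 2 h5

end Pool.Agent.H416R3.GD
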